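import Pool.Agent.Q138.PS.TE

set_option autoImplicit false

/-!
# Integrals of functions at integer parts, by partial integration
-/

namespace Pool.Agent.Q150.LV

open Finset MeasureTheory Filter Topology
open Pool.Agent.Q138.PS

/-- **partial integration along a convex increasing function** -/
theorem ibp {g g' g'' : ℝ → ℝ} {a b α : ℝ} (hab : a ≤ b) (hα : 0 < α)
    (hg : ∀ x ∈ Set.Icc a b, HasDerivAt g (g' x) x) (hg' : ∀ x ∈ Set.Icc a b, HasDerivAt g' (g'' x) x)
    (hgc : ContinuousOn g'' (Set.Icc a b)) (h0 : ∀ x ∈ Set.Icc a b, 0 < g' x)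
    (h2 : ∀ x ∈ Set.Icc a b, 0 ≤ g'' x) (hga : 0 ≤ g a) (h : ℕ → ℝ) {S : ℝ}
    (hS : ∀ y, α * g a ≤ y → y ≤ α * g b → |PrR h y - PrR h (α * g a)| ≤ S) :
    |∫ x in a..b, h ⌊α * g x⌋₊| ≤ S / (α * g' a) := by
  have ha : a ∈ Set.Icc a b := Set.left_mem_Icc.2 hab
  have hb : b ∈ Set.Icc a b := Set.right_mem_Icc.2 hab
  have hcont : ContinuousOn g (Set.Icc a b) := fun x hx => (hg x hx).continuousAt.continuousWithinAt
  have hcont' : ContinuousOn g' (Set.Icc a b) := fun x hx => (hg' x hx).continuousAt.continuousWithinAt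
  have hmono : MonotoneOn g (Set.Icc a b) := by
    refine monotoneOn_of_deriv_nonneg (convex_Icc a b) hcont ?_ ?_
    · intro x hx
      exact (hg x (interior_subset hx)).differentiableAt.differentiableWithinAt
    · intro x hx
      rw [(hg x (interior_subset hx)).deriv]
      exact (h0 x (interior_subset hx)).le
  set P : ℝ → ℝ := fun x => α * g x with hP
  set c0 : ℝ := PrR h (α * g a) with hc0
  set w : ℝ → ℝ := fun x => 1 / (α * g' x) with hw
  set w' : ℝ → ℝ := fun x => -(α * g'' x) / (α * g' x) ^ 2 with hw'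
  have hPc : ContinuousOn P (Set.Icc a b) := continuousOn_const.mul hcont
  have hderw : ∀ x ∈ Set.Icc a b, HasDerivAt w (w' x) x := by
    intro x hx
    have h1 := ((hg' x hx).const_mul α).fun_inv (mul_pos hα (h0 x hx)).ne'
    simpa [hw, hw', one_div] using h1
  have hcw : ContinuousOn w (Set.Icc a b) := fun x hx => (hderw x hx).continuousAt.continuousWithinAt
  have hcw' : ContinuousOn w' (Set.Icc a b) := by
    refine (continuousOn_const.mul hgc).neg.div ((continuousOn_const.mul hcont').pow 2) ?_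
    intro x hx
    exact (pow_pos (mul_pos hα (h0 x hx)) 2).ne'
  set G : ℝ → ℝ := fun x => w x * (PrR h (P x) - c0) with hG
  set G' : ℝ → ℝ := fun x => h ⌊P x⌋₊ + w' x * (PrR h (P x) - c0) with hG'
  have hPrc : ContinuousOn (fun x => PrR h (P x) - c0) (Set.Icc a b) :=
    ((PrR_cont h).comp_continuousOn hPc).sub continuousOn_const
  have hGc : ContinuousOn G (Set.Icc a b) := hcw.mul hPrc
  have hGd : ∀ x ∈ Set.Ioo a b, HasDerivWithinAt G (G' x) (Set.Ioi x) x := by
    intro x hx
    have hx' : x ∈ Set.Icc a b := Set.Ioo_subset_Icc_self hx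
    have hPx : 0 ≤ P x := mul_nonneg hα.le (hga.trans (hmono ha hx' hx'.1))
    have h1 : HasDerivWithinAt P (α * g' x) (Set.Ioo x b) x := ((hg x hx').const_mul α).hasDerivWithinAt
    have hmaps : Set.MapsTo P (Set.Ioo x b) (Set.Ici (P x)) := by
      intro y hy
      exact mul_le_mul_of_nonneg_left (hmono hx' ⟨hx.1.le.trans hy.1.le, hy.2.le⟩ hy.1.le) hα.le
    have h3 := ((PrR_deriv h hPx).scomp x h1 hmaps).sub_const c0
    have h4 : HasDerivWithinAt w (w' x) (Set.Ioo x b) x := (hderw x hx').hasDerivWithinAt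
    have h5 := h4.mul h3
    have e : w' x * ((PrR h ∘ P) x - c0) + w x * ((α * g' x) • h ⌊P x⌋₊) = G' x := by
      rw [hG']
      simp only [Function.comp, smul_eq_mul]
      have : w x * (α * g' x * h ⌊P x⌋₊) = h ⌊P x⌋₊ := by
        rw [hw]
        have h7 := (mul_pos hα (h0 x hx')).ne'
        simp only
        rw [mul_comm (α * g' x), mul_comm, mul_assoc, mul_one_div_cancel h7, mul_one]
      rw [this]
      ring
    rw [e] at h5
    exact h5.Ioi_of_Ioo hx.2
  have hmeas1 : IntervalIntegrable (fun x => h ⌊P x⌋₊) volume a b := flcR_ii h hab hPc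
  have hint2 : IntervalIntegrable (fun x => w' x * (PrR h (P x) - c0)) volume a b := by
    apply ContinuousOn.intervalIntegrable
    rw [Set.uIcc_of_le hab]
    exact hcw'.mul hPrc
  have hftc := intervalIntegral.integral_eq_sub_of_hasDeriv_right_of_le hab hGc hGd (hmeas1.add hint2)
  have hadd : ∫ x in a..b, G' x = (∫ x in a..b, h ⌊P x⌋₊) + ∫ x in a..b, w' x * (PrR h (P x) - c0) :=
    intervalIntegral.integral_add hmeas1 hint2
  rw [hadd] at hftc
  have hGa : G a = 0 := by
    simp only [hG, hP, hc0, sub_self, mul_zero]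
  have hwpos : ∀ x ∈ Set.Icc a b, 0 < w x := fun x hx => by
    have := mul_pos hα (h0 x hx)
    rw [hw]
    positivity
  have hw'neg : ∀ x ∈ Set.Icc a b, w' x ≤ 0 := by
    intro x hx
    rw [hw']
    have h3 := mul_nonneg hα.le (h2 x hx)
    have h4 := pow_pos (mul_pos hα (h0 x hx)) 2
    exact div_nonpos_of_nonpos_of_nonneg (by linarith) h4.le
  have hSx : ∀ x ∈ Set.Icc a b, |PrR h (P x) - c0| ≤ S := by
    intro x hx
    exact hS (P x) (mul_le_mul_of_nonneg_left (hmono ha hx hx.1) hα.le)
      (mul_le_mul_of_nonneg_left (hmono hx hb hx.2) hα.le)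
  have hGb : |G b| ≤ w b * S := by
    rw [hG]
    simp only
    rw [abs_mul, abs_of_pos (hwpos b hb)]
    exact mul_le_mul_of_nonneg_left (hSx b hb) (hwpos b hb).le
  have hw'i : IntervalIntegrable w' volume a b := by
    apply ContinuousOn.intervalIntegrable
    rw [Set.uIcc_of_le hab]
    exact hcw'
  have hFTw : ∫ x in a..b, w' x = w b - w a := by
    apply intervalIntegral.integral_eq_sub_of_hasDerivAt
    · intro x hx
      rw [Set.uIcc_of_le hab] at hx
      exact hderw x hx
    · exact hw'i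
  have h6 : |∫ x in a..b, w' x * (PrR h (P x) - c0)| ≤ (w a - w b) * S := by
    calc |∫ x in a..b, w' x * (PrR h (P x) - c0)| ≤ ∫ x in a..b, |w' x * (PrR h (P x) - c0)| :=
          intervalIntegral.abs_integral_le_integral_abs hab
      _ ≤ ∫ x in a..b, (-w' x) * S := by
          refine intervalIntegral.integral_mono_on hab hint2.abs (hw'i.neg.mul_const S) fun x hx => ?_
          rw [abs_mul, abs_of_nonpos (hw'neg x hx)]
          exact mul_le_mul_of_nonneg_left (hSx x hx) (by linarith [hw'neg x hx])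
      _ = (w a - w b) * S := by
          rw [intervalIntegral.integral_mul_const, intervalIntegral.integral_neg, hFTw]
          ring
  have h7 : (∫ x in a..b, h ⌊P x⌋₊) = G b - ∫ x in a..b, w' x * (PrR h (P x) - c0) := by
    rw [hGa] at hftc
    linarith
  rw [h7]
  calc |G b - ∫ x in a..b, w' x * (PrR h (P x) - c0)| ≤ |G b| + |∫ x in a..b, w' x * (PrR h (P x) - c0)| := abs_sub _ _
    _ ≤ w b * S + (w a - w b) * S := add_le_add hGb h6
    _ = S / (α * g' a) := by
        rw [hw]
        ring

end Pool.Agent.Q150.LV
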