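import Pool.Agent.Q150.LV.A
import Pool.Agent.Q138.PS.TF
import Pool.Agent.Results.MP_188a10_nt.WeightedExceptional

set_option autoImplicit false

/-!
# Primitives of the errors in arithmetic progressions
-/

namespace Pool.Agent.Q150.LV

open Finset MeasureTheory Filter Topology
open Pool.Agent.Q138.PS
open Pool.Agent.Results.MP_188a10_nt.WeightedExceptional (primesAP li EMax nuD)
open Pool.Agent.H442R2.EHI (lis)

/-- from integers to reals -/
theorem PrR_step (h : ℕ → ℝ) {y : ℝ} (hy : 0 ≤ y) : |PrR h y - PrR h (⌊y⌋₊ : ℕ)| ≤ |h ⌊y⌋₊| := by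
  have hfl : ((⌊y⌋₊ : ℕ) : ℝ) ≤ y := Nat.floor_le hy
  have hlt : y < (⌊y⌋₊ : ℝ) + 1 := Nat.lt_floor_add_one y
  have h1 : PrR h y - PrR h (⌊y⌋₊ : ℕ) = ∫ t in ((⌊y⌋₊ : ℕ) : ℝ)..y, h ⌊t⌋₊ := by
    unfold PrR
    rw [intervalIntegral.integral_interval_sub_left (flR_ii h _ _) (flR_ii h _ _)]
  rw [h1]
  have h3 := intervalIntegral.norm_integral_le_of_norm_le_const (a := ((⌊y⌋₊ : ℕ) : ℝ)) (b := y) (C := |h ⌊y⌋₊|)
    (f := fun t => h ⌊t⌋₊) (fun t ht => by
      rw [Set.uIoc_of_le hfl] at ht
      have : ⌊t⌋₊ = ⌊y⌋₊ := by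
        rw [Nat.floor_eq_iff ((Nat.cast_nonneg _).trans ht.1.le)]
        exact ⟨ht.1.le, ht.2.trans_lt hlt⟩
      rw [this, Real.norm_eq_abs])
  rw [Real.norm_eq_abs] at h3
  refine h3.trans ?_
  rw [abs_of_nonneg (by linarith : 0 ≤ y - ((⌊y⌋₊ : ℕ) : ℝ))]
  have := abs_nonneg (h ⌊y⌋₊)
  nlinarith

/-- the density of the primes -/
noncomputable def lw (m : ℕ) : ℝ := if 2 ≤ m then 1 / Real.log m else 0

theorem log2 : 1 / 2 < Real.log 2 := by linarith [Real.log_two_gt_d9]

theorem lw_nonneg (m : ℕ) : 0 ≤ lw m := by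
  unfold lw
  split_ifs with h
  · exact one_div_nonneg.2 (Real.log_natCast_nonneg m)
  · exact le_rfl

theorem lw_le (m : ℕ) : lw m ≤ 2 := by
  unfold lw
  split_ifs with h
  · have h1 : (2 : ℝ) ≤ m := by exact_mod_cast h
    have h2 : Real.log 2 ≤ Real.log m := Real.log_le_log (by norm_num) h1
    rw [div_le_iff₀ (by linarith [log2])]
    linarith [log2]
  · norm_num

theorem lw_sum {n : ℕ} (hn : 2 ≤ n) : ∑ m ∈ range n, lw m = lis (n - 1) := by
  unfold lis
  have e1 : Icc 2 (n - 1) = Ico 2 n := by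
    ext m
    rw [mem_Icc, mem_Ico]
    omega
  rw [e1, range_eq_Ico, ← sum_Ico_consecutive _ (Nat.zero_le 2) hn]
  have e2 : ∑ m ∈ Ico 0 2, lw m = 0 := by
    apply sum_eq_zero
    intro m hm
    rw [mem_Ico] at hm
    unfold lw
    rw [if_neg (by omega)]
  rw [e2, zero_add]
  refine sum_congr rfl fun m hm => ?_
  rw [mem_Ico] at hm
  unfold lw
  rw [if_pos hm.1]

theorem lis_li {n : ℕ} (hn : 2 ≤ n) : |lis (n - 1) - li n| ≤ 4 := by
  have h1 := Pool.Agent.H442R2.EHI.FinalOf.lis_sub n hn
  have h2 : lis n = lis (n - 1) + lw n := by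
    unfold lis
    have e : n = (n - 1) + 1 := by omega
    have h3 : Icc 2 n = insert n (Icc 2 (n - 1)) := by
      ext m
      rw [mem_insert, mem_Icc, mem_Icc]
      omega
    rw [h3, sum_insert (by rw [mem_Icc]; omega)]
    unfold lw
    rw [if_pos hn]
    ring
  have h4 := lw_nonneg n
  have h5 := lw_le n
  unfold li
  rw [abs_le] at h1 ⊢
  constructor <;> linarith [h1.1, h1.2]

/-- the primes in a class -/
def XP (d : ℕ) (l : ZMod d) (m : ℕ) : Prop := m.Prime ∧ (m : ZMod d) = l

/-- the class -/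
def XC (d : ℕ) (l : ZMod d) (m : ℕ) : Prop := (m : ZMod d) = l

theorem EMax_bdd (N d : ℕ) (l : (ZMod d)ˣ) (hd : 1 ≤ d) :
    BddAbove (Set.range fun y : Set.Icc (2 : ℝ) N =>
      |(primesAP y d (l : ZMod d) : ℝ) - li y / (Nat.totient d : ℝ)|) := by
  refine ⟨N + 2 * N, ?_⟩
  rintro _ ⟨⟨y, hy2, hyN⟩, rfl⟩
  have hφ : (1 : ℝ) ≤ Nat.totient d := by exact_mod_cast Nat.totient_pos.mpr (by omega)
  simp only
  have h1 : (primesAP y d (l : ZMod d) : ℝ) ≤ N := by
    have h2 : primesAP y d (l : ZMod d) ≤ ⌊y⌋₊ := by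
      unfold primesAP
      refine (card_filter_le _ _).trans ?_
      simp
    have h3 : ((⌊y⌋₊ : ℕ) : ℝ) ≤ y := Nat.floor_le (by linarith)
    have h4 : (primesAP y d (l : ZMod d) : ℝ) ≤ (⌊y⌋₊ : ℝ) := by exact_mod_cast h2
    linarith
  have h3 : 0 ≤ li y := by
    unfold li
    apply intervalIntegral.integral_nonneg hy2
    intro t ht
    have : 0 < Real.log t := Real.log_pos (by linarith [ht.1])
    positivity
  have h4 : li y ≤ 2 * N := by
    have h := intervalIntegral.norm_integral_le_of_norm_le_const (a := (2 : ℝ)) (b := y)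
      (f := fun t => 1 / Real.log t) (C := 2) (by
        intro t ht
        rw [Set.uIoc_of_le hy2] at ht
        have h3 : Real.log 2 ≤ Real.log t := Real.log_le_log (by norm_num) ht.1.le
        rw [Real.norm_eq_abs, abs_of_pos (by
          have : 0 < Real.log t := by linarith [log2]
          positivity), div_le_iff₀ (by linarith [log2])]
        linarith [log2])
    rw [Real.norm_eq_abs, abs_of_nonneg (show 0 ≤ y - 2 by linarith)] at h
    have := (le_abs_self _).trans h
    unfold li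
    linarith
  have h5 : li y / (Nat.totient d : ℝ) ≤ 2 * N := (div_le_self h3 hφ).trans h4
  have h6 : 0 ≤ li y / (Nat.totient d : ℝ) := by positivity
  have h7 : (0 : ℝ) ≤ primesAP y d (l : ZMod d) := Nat.cast_nonneg _
  rw [abs_le]
  constructor <;> linarith

theorem EMax_nonneg (N d : ℕ) (l : (ZMod d)ˣ) : 0 ≤ EMax N d l := Real.iSup_nonneg fun _ => abs_nonneg _

theorem le_EMax {N d : ℕ} (l : (ZMod d)ˣ) (hd : 1 ≤ d) {y : ℝ} (h2 : 2 ≤ y) (hy : y ≤ N) :
    |(primesAP y d (l : ZMod d) : ℝ) - li y / (Nat.totient d : ℝ)| ≤ EMax N d l :=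
  le_ciSup (EMax_bdd N d l hd) ⟨y, h2, hy⟩

/-- **the primitive of the error for primes** -/
theorem PrR_prime {N d : ℕ} (l : (ZMod d)ˣ) (hd : 1 ≤ d) {y : ℝ} (hy0 : 0 ≤ y) (hy : y ≤ N) :
    |PrR (fun m => ind (XP d l) m - lw m / (Nat.totient d : ℝ)) y| ≤ EMax N d l + 8 := by
  classical
  have hφ : (1 : ℝ) ≤ Nat.totient d := by exact_mod_cast Nat.totient_pos.mpr (by omega)
  set h : ℕ → ℝ := fun m => ind (XP d l) m - lw m / (Nat.totient d : ℝ) with hh
  have hb : ∀ m, |h m| ≤ 3 := by
    intro m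
    have h1 := ind_nonneg (XP d l) m
    have h2 := ind_le (XP d l) m
    have h3 := lw_nonneg m
    have h4 : lw m / (Nat.totient d : ℝ) ≤ 2 := (div_le_self h3 hφ).trans (lw_le m)
    have h5 : 0 ≤ lw m / (Nat.totient d : ℝ) := by positivity
    rw [hh]
    simp only
    rw [abs_le]
    constructor <;> linarith
  have h1 := (PrR_step h hy0).trans (hb _)
  set n := ⌊y⌋₊ with hn
  have hnN : (n : ℝ) ≤ N := (Nat.floor_le hy0).trans hy
  have h2 : |PrR h (n : ℕ)| ≤ EMax N d l + 5 := by
    rw [PrR_nat]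
    rcases Nat.lt_or_ge n 2 with h2 | h2
    · have : ∑ m ∈ range n, h m = 0 := by
        apply sum_eq_zero
        intro m hm
        rw [mem_range] at hm
        have hm2 : m < 2 := by omega
        have e1 : ind (XP d l) m = 0 := by
          unfold ind
          rw [if_neg]
          rintro ⟨hp, -⟩
          exact absurd hp.two_le (by omega)
        have e2 : lw m = 0 := by
          unfold lw
          rw [if_neg (by omega)]
        rw [hh]
        simp only
        rw [e1, e2]
        simp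
      rw [this, abs_zero]
      linarith [EMax_nonneg N d l]
    · have e1 : ∑ m ∈ range n, h m = (((range n).filter fun m => XP d l m).card : ℝ) - lis (n - 1) / (Nat.totient d : ℝ) := by
        rw [hh, sum_sub_distrib, ← sum_div, lw_sum h2, ind_sum (XP d l) (range n) (fun m => m)]
      rw [e1]
      have e2 : (((range n).filter fun m => XP d l m).card) ≤ primesAP n d (l : ZMod d) ∧
          primesAP n d (l : ZMod d) ≤ ((range n).filter fun m => XP d l m).card + 1 := by
        unfold primesAP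
        rw [Nat.floor_natCast]
        constructor
        · apply card_le_card
          intro m hm
          rw [mem_filter, mem_range] at hm
          rw [mem_filter, mem_Icc]
          exact ⟨⟨hm.2.1.one_le, hm.1.le⟩, hm.2⟩
        · refine (card_le_card (t := insert n ((range n).filter fun m => XP d l m)) ?_).trans (card_insert_le _ _)
          intro m hm
          rw [mem_filter, mem_Icc] at hm
          rw [mem_insert, mem_filter, mem_range]
          rcases Nat.lt_or_ge m n with h3 | h3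
          · exact Or.inr ⟨h3, hm.2⟩
          · exact Or.inl (le_antisymm hm.1.2 h3)
      have e3 : (((range n).filter fun m => XP d l m).card : ℝ) ≤ primesAP n d (l : ZMod d) := by exact_mod_cast e2.1
      have e4 : (primesAP n d (l : ZMod d) : ℝ) ≤ (((range n).filter fun m => XP d l m).card : ℝ) + 1 := by
        exact_mod_cast e2.2
      have h3 := le_EMax (N := N) l hd (y := (n : ℝ)) (by exact_mod_cast h2) hnN
      have h4 : |(lis (n - 1) - li n) / (Nat.totient d : ℝ)| ≤ 4 := by
        rw [abs_div, abs_of_pos (by linarith : (0 : ℝ) < Nat.totient d)]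
        exact (div_le_self (abs_nonneg _) hφ).trans (lis_li h2)
      rw [sub_div] at h4
      rw [abs_le] at h3 h4 ⊢
      constructor <;> linarith [h3.1, h3.2, h4.1, h4.2]
  have e : PrR h y = (PrR h y - PrR h (n : ℕ)) + PrR h (n : ℕ) := by ring
  rw [e]
  refine (abs_add_le _ _).trans ?_
  linarith

/-- **the primitive of the error for a class** -/
theorem PrR_class {d : ℕ} (l : ZMod d) (hd : 1 ≤ d) {y : ℝ} (hy0 : 0 ≤ y) :
    |PrR (fun m => ind (XC d l) m - 1 / (d : ℝ)) y| ≤ 2 := by
  classical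
  have hd1 : (1 : ℝ) ≤ d := by exact_mod_cast hd
  have hNe : NeZero d := ⟨by omega⟩
  set h : ℕ → ℝ := fun m => ind (XC d l) m - 1 / (d : ℝ) with hh
  have hb : ∀ m, |h m| ≤ 1 := by
    intro m
    have h1 := ind_nonneg (XC d l) m
    have h2 := ind_le (XC d l) m
    have h4 : 1 / (d : ℝ) ≤ 1 := by
      rw [div_le_one (by linarith)]
      exact hd1
    have h5 : 0 ≤ 1 / (d : ℝ) := by positivity
    rw [hh]
    simp only
    rw [abs_le]
    constructor <;> linarith
  have h1 := (PrR_step h hy0).trans (hb _)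
  set n := ⌊y⌋₊ with hn
  have h2 : |PrR h (n : ℕ)| ≤ 1 := by
    rw [PrR_nat]
    have e1 : ∑ m ∈ range n, h m = (((range n).filter fun m => XC d l m).card : ℝ) - n / (d : ℝ) := by
      rw [hh, sum_sub_distrib, ind_sum (XC d l) (range n) (fun m => m), sum_const, card_range, nsmul_eq_mul]
      ring
    have e2 : ((range n).filter fun m => XC d l m).card = n.count (fun m => m ≡ l.val [MOD d]) := by
      rw [Nat.count_eq_card_filter_range]
      congr 1
      apply filter_congr
      intro m _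
      unfold XC
      rw [← ZMod.natCast_eq_natCast_iff, ZMod.natCast_zmod_val]
    rw [e1, e2, Nat.count_modEq_card n (by omega : 0 < d)]
    have h3 : (n : ℝ) = d * (n / d : ℕ) + (n % d : ℕ) := by
      exact_mod_cast (Nat.div_add_mod n d).symm
    have h4 : ((n % d : ℕ) : ℝ) < d := by exact_mod_cast Nat.mod_lt n (by omega : 0 < d)
    have h5 : (0 : ℝ) ≤ ((n % d : ℕ) : ℝ) := Nat.cast_nonneg _
    have h6 : (n : ℝ) / d = (n / d : ℕ) + (n % d : ℕ) / (d : ℝ) := by
      rw [h3]
      field_simp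
    have h7 : ((n % d : ℕ) : ℝ) / d < 1 := by
      rw [div_lt_one (by linarith)]
      exact h4
    have h8 : 0 ≤ ((n % d : ℕ) : ℝ) / d := by positivity
    rw [h6]
    push_cast
    split_ifs <;> rw [abs_le] <;> constructor <;> linarith
  have e : PrR h y = (PrR h y - PrR h (n : ℕ)) + PrR h (n : ℕ) := by ring
  rw [e]
  refine (abs_add_le _ _).trans ?_
  linarith

end Pool.Agent.Q150.LV
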