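import Pool.Agent.Q150.LV.B

set_option autoImplicit false

/-!
# The integral of the indicator of the primes in a class along a polynomial
-/

namespace Pool.Agent.Q150.LV

open Finset MeasureTheory Filter Topology
open Pool.Agent.Q138.PS
open Pool.Agent.Results.MP_188a10_nt.WeightedExceptional (primesAP li EMax nuD)

/-- the derivative has bounded coefficients -/
theorem der_PH {q : ℕ} (hq : 1 ≤ q) {P : Polynomial ℝ} {H : ℝ} (hH : 1 ≤ H) (hP : PH q H P) :
    PH (q - 1) (q * H) P.derivative := by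
  obtain ⟨hdeg, hlead, hco⟩ := hP
  have hq1 : (1 : ℝ) ≤ q := by exact_mod_cast hq
  have hcq : P.derivative.coeff (q - 1) = q * P.leadingCoeff := by
    rw [Polynomial.coeff_derivative, Polynomial.leadingCoeff, hdeg]
    have : q - 1 + 1 = q := by omega
    rw [this]
    have e : (((q - 1 : ℕ) : ℝ) + 1) = q := by
      rw [Nat.cast_sub hq]
      push_cast
      ring
    rw [e]
    ring
  have hd1 : P.derivative.natDegree = q - 1 := by
    apply Polynomial.natDegree_eq_of_le_of_coeff_ne_zero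
    · rw [← hdeg]
      exact Polynomial.natDegree_derivative_le P
    · rw [hcq]
      have : 0 < (q : ℝ) * P.leadingCoeff := by positivity
      exact this.ne'
  have hl1 : P.derivative.leadingCoeff = q * P.leadingCoeff := by
    rw [Polynomial.leadingCoeff, hd1, hcq]
  refine ⟨hd1, by rw [hl1]; nlinarith, fun i => ?_⟩
  rw [Polynomial.coeff_derivative, abs_mul]
  rcases lt_or_ge i q with h1 | h1
  · have e1 : |((i : ℝ) + 1)| ≤ q := by
      rw [abs_of_nonneg (by positivity)]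
      exact_mod_cast h1
    have e2 := hco (i + 1)
    calc |P.coeff (i + 1)| * |((i : ℝ) + 1)| ≤ H * q := by gcongr
      _ = q * H := mul_comm _ _
  · rw [Polynomial.coeff_eq_zero_of_natDegree_lt (by omega), abs_zero, zero_mul]
    positivity

/-- facts on the interval -/
theorem pol_facts {q : ℕ} (hq : 2 ≤ q) {P : Polynomial ℝ} {H : ℝ} (hH : 1 ≤ H) (hP : PH q H P) {x : ℝ}
    (hx : 4 * (q * (q * H)) ≤ x) :
    0 < P.derivative.eval x ∧ q * P.leadingCoeff * x ^ (q - 1) / 2 ≤ P.derivative.eval x ∧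
      0 ≤ P.derivative.derivative.eval x ∧ P.leadingCoeff * x ^ q / 2 ≤ P.eval x ∧ P.eval x ≤ 2 * P.leadingCoeff * x ^ q := by
  have hq2 : (2 : ℝ) ≤ q := by exact_mod_cast hq
  have hqH : (1 : ℝ) ≤ q * H := by nlinarith
  have h1 : 4 * (q * H) ≤ x := by nlinarith
  have h2 : 4 * H ≤ x := by nlinarith
  have hx0 : 0 < x := by nlinarith
  have hd := pol_der (by omega) hP.1 hP.2.1 hH hP.2.2 h1
  have hP' := der_PH (by omega) hH hP
  have hdd := pol_der (q := q - 1) (by omega) hP'.1 hP'.2.1 hqH hP'.2.2 (x := x) (by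
    rw [Nat.cast_sub (by omega)]
    push_cast
    nlinarith)
  have hv := poly_up2 hP.1 hP.2.1 hH hP.2.2 h2
  have hl : 0 < P.leadingCoeff := by linarith [hP.2.1]
  have hl' : 0 < P.derivative.leadingCoeff := by linarith [hP'.2.1]
  refine ⟨lt_of_lt_of_le (by positivity) hd.1, hd.1, le_trans (by positivity) hdd.1, hv.1, hv.2⟩

theorem cont_ev (P : Polynomial ℝ) (s : Set ℝ) : ContinuousOn (fun x => P.eval x) s := by fun_prop

/-- **partial integration for polynomials** -/
theorem ibp_pol {q : ℕ} (hq : 2 ≤ q) {P : Polynomial ℝ} {H : ℝ} (hH : 1 ≤ H) (hP : PH q H P) {α : ℝ} (hα : 0 < α)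
    {a b : ℝ} (ha : 4 * (q * (q * H)) ≤ a) (hab : a ≤ b) (h : ℕ → ℝ) {S : ℝ}
    (hS : ∀ y, 0 ≤ y → y ≤ α * P.eval b → |PrR h y| ≤ S) :
    |∫ x in a..b, h ⌊α * P.eval x⌋₊| ≤ 2 * S / (α * P.derivative.eval a) := by
  have hf : ∀ x ∈ Set.Icc a b, _ := fun x hx => pol_facts hq hH hP (ha.trans hx.1)
  have ha' : a ∈ Set.Icc a b := Set.left_mem_Icc.2 hab
  have hl : 0 < P.leadingCoeff := by linarith [hP.2.1]
  have hq2 : (2 : ℝ) ≤ q := by exact_mod_cast hq
  have ha0 : 0 < a := lt_of_lt_of_le (by positivity) ha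
  have hPa : 0 ≤ P.eval a := le_trans (by positivity) (hf a ha').2.2.2.1
  have hmono : P.eval a ≤ P.eval b := by
    have hm : MonotoneOn (fun x => P.eval x) (Set.Icc a b) := by
      refine monotoneOn_of_deriv_nonneg (convex_Icc a b) (cont_ev P _) ?_ ?_
      · intro x hx
        exact (pol_hd P x).differentiableAt.differentiableWithinAt
      · intro x hx
        rw [(pol_hd P x).deriv]
        exact (hf x (interior_subset hx)).1.le
    exact hm ha' (Set.right_mem_Icc.2 hab) hab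
  have h1 := ibp (g := fun x => P.eval x) (g' := fun x => P.derivative.eval x)
    (g'' := fun x => P.derivative.derivative.eval x) hab hα (fun x _ => pol_hd P x) (fun x _ => pol_hd P.derivative x)
    (cont_ev _ _) (fun x hx => (hf x hx).1) (fun x hx => (hf x hx).2.2.1) hPa h (S := 2 * S) (fun y hy1 hy2 => by
      have e1 := hS y ((mul_nonneg hα.le hPa).trans hy1) hy2
      have e2 := hS (α * P.eval a) (mul_nonneg hα.le hPa) (mul_le_mul_of_nonneg_left hmono hα.le)
      refine (abs_sub _ _).trans ?_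
      linarith)
  exact h1

/-- the weight and the logarithm -/
theorem lw_log {y T : ℝ} (hT : 3 ≤ T) (hy : T ≤ y) : |lw ⌊y⌋₊ - 1 / Real.log (max y 3)| ≤ 2 / T := by
  have hy3 : 3 ≤ y := hT.trans hy
  have hy0 : 0 ≤ y := by linarith
  rw [max_eq_left hy3]
  set m := ⌊y⌋₊ with hm
  have hm3 : 3 ≤ m := Nat.le_floor (by exact_mod_cast hy3)
  have hm3r : (3 : ℝ) ≤ m := by exact_mod_cast hm3
  have hmy : (m : ℝ) ≤ y := Nat.floor_le hy0
  have hym : y < m + 1 := Nat.lt_floor_add_one y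
  have hlog3 : 1 ≤ Real.log 3 := by
    rw [Real.le_log_iff_exp_le (by norm_num)]
    linarith [Real.exp_one_lt_d9]
  have h1 : Real.log 3 ≤ Real.log m := Real.log_le_log (by norm_num) hm3r
  have h2 : Real.log m ≤ Real.log y := Real.log_le_log (by linarith) hmy
  have h3 : Real.log y - Real.log m ≤ 1 / m := by
    rw [← Real.log_div (by linarith) (by linarith)]
    have h4 := Real.log_le_sub_one_of_pos (show 0 < y / m by positivity)
    have h5 : y / m - 1 ≤ 1 / m := by
      rw [div_sub_one (by linarith)]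
      gcongr
      linarith
    linarith
  have e : lw m = 1 / Real.log m := by
    unfold lw
    rw [if_pos (by omega)]
  have hlm : 0 < Real.log m := by linarith
  have hly : 0 < Real.log y := by linarith
  rw [e]
  have h6 : 1 / Real.log m - 1 / Real.log y = (Real.log y - Real.log m) / (Real.log m * Real.log y) := by
    field_simp
  have h7 : (1 : ℝ) ≤ Real.log m * Real.log y := by nlinarith
  rw [h6, abs_of_nonneg (div_nonneg (by linarith) (by positivity))]
  calc (Real.log y - Real.log m) / (Real.log m * Real.log y) ≤ (Real.log y - Real.log m) :=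
        div_le_self (by linarith) h7
    _ ≤ 1 / m := h3
    _ ≤ 2 / T := by
        rw [div_le_div_iff₀ (by linarith) (by linarith)]
        linarith

theorem li_cont (α : ℝ) (P : Polynomial ℝ) : Continuous fun x : ℝ => 1 / Real.log (max (α * P.eval x) 3) := by
  have h1 : Continuous fun x : ℝ => max (α * P.eval x) 3 := (by fun_prop : Continuous fun x : ℝ => α * P.eval x).max continuous_const
  have h3 : ∀ x : ℝ, (3 : ℝ) ≤ max (α * P.eval x) 3 := fun x => le_max_right _ _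
  refine continuous_const.div (h1.log fun x => by linarith [h3 x]) fun x => ?_
  exact (Real.log_pos (by linarith [h3 x])).ne'

theorem li_bd (α : ℝ) (P : Polynomial ℝ) (x : ℝ) :
    0 ≤ 1 / Real.log (max (α * P.eval x) 3) ∧ 1 / Real.log (max (α * P.eval x) 3) ≤ 1 := by
  have hlog3 : 1 ≤ Real.log 3 := by
    rw [Real.le_log_iff_exp_le (by norm_num)]
    linarith [Real.exp_one_lt_d9]
  have h1 : Real.log 3 ≤ Real.log (max (α * P.eval x) 3) := Real.log_le_log (by norm_num) (le_max_right _ _)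
  have h2 : 0 < Real.log (max (α * P.eval x) 3) := by linarith
  refine ⟨by positivity, ?_⟩
  rw [div_le_one h2]
  linarith

/-- **the main estimate for one class** -/
theorem det {q : ℕ} (hq : 2 ≤ q) {P : Polynomial ℝ} {H : ℝ} (hH : 1 ≤ H) (hP : PH q H P) {α : ℝ} (hα : 0 < α)
    {x0 n1 M N Y d : ℕ} (hx0 : 4 * (q * (q * H)) ≤ x0) (h01 : x0 ≤ n1) (hM : M ≤ N) (hn1N : n1 ≤ N)
    (hder : 1 ≤ α * P.derivative.eval (x0 : ℝ)) {T : ℝ} (hT : 3 ≤ T)
    (hTn : ∀ x : ℝ, (n1 : ℝ) ≤ x → T ≤ α * P.eval x) (hY : α * P.eval (N : ℝ) ≤ Y) (l : (ZMod d)ˣ) (hd : 1 ≤ d) :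
    |(∫ x in (0 : ℝ)..(M : ℝ), ind (XP d l) ⌊α * P.eval x⌋₊) -
      (∫ x in (0 : ℝ)..(M : ℝ), 1 / Real.log (max (α * P.eval x) 3)) / (Nat.totient d : ℝ)| ≤
      x0 + 4 + n1 / d + n1 / (Nat.totient d : ℝ) + 2 * (EMax Y d l + 8) / (α * P.derivative.eval (n1 : ℝ)) +
        N * (2 / T) := by
  classical
  have hφ : (1 : ℝ) ≤ Nat.totient d := by exact_mod_cast Nat.totient_pos.mpr (by omega)
  have hφ0 : (0 : ℝ) < Nat.totient d := by linarith
  have hd1 : (1 : ℝ) ≤ d := by exact_mod_cast hd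
  set φ : ℝ := (Nat.totient d : ℝ) with hφd
  set F : ℝ → ℝ := fun x => ind (XP d l) ⌊α * P.eval x⌋₊ with hF
  set G : ℝ → ℝ := fun x => 1 / Real.log (max (α * P.eval x) 3) with hG
  have hPc : ∀ s : Set ℝ, ContinuousOn (fun x => α * P.eval x) s := fun s => by fun_prop
  have hFi : ∀ a b : ℝ, a ≤ b → IntervalIntegrable F volume a b := fun a b hab => flcR_ii _ hab (hPc _)
  have hGi : ∀ a b : ℝ, IntervalIntegrable G volume a b := fun a b => (li_cont α P).intervalIntegrable _ _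
  have h01r : (x0 : ℝ) ≤ n1 := by exact_mod_cast h01
  have hMr : (M : ℝ) ≤ N := by exact_mod_cast hM
  have hx0r : (0 : ℝ) ≤ x0 := Nat.cast_nonneg _
  have hn1r : (0 : ℝ) ≤ n1 := Nat.cast_nonneg _
  have hM0r : (0 : ℝ) ≤ M := Nat.cast_nonneg _
  have hx0n1 : 4 * (q * (q * H)) ≤ (n1 : ℝ) := hx0.trans h01r
  have hdn1 := (pol_facts hq hH hP hx0n1).1
  have hEM := EMax_nonneg Y d l
  -- the first part
  have hF0 : ∀ x, 0 ≤ F x := fun x => ind_nonneg _ _
  have hF1 : ∀ x, F x ≤ 1 := fun x => ind_le _ _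
  have hclass : ∫ x in (x0 : ℝ)..(n1 : ℝ), F x ≤ n1 / d + 4 := by
    have h1 : ∫ x in (x0 : ℝ)..(n1 : ℝ), F x ≤ ∫ x in (x0 : ℝ)..(n1 : ℝ), ind (XC d l) ⌊α * P.eval x⌋₊ := by
      refine intervalIntegral.integral_mono_on h01r (hFi _ _ h01r) (flcR_ii _ h01r (hPc _)) fun x _ => ?_
      simp only [hF]
      unfold ind XP XC
      split_ifs with h1 h2
      · exact le_rfl
      · exact absurd h1.2 h2
      · exact zero_le_one
      · exact le_rfl
    have h2 := ibp_pol hq hH hP hα hx0 h01r (fun m => ind (XC d l) m - 1 / (d : ℝ)) (S := 2)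
      (fun y hy _ => PrR_class (l : ZMod d) hd hy)
    have h3 : ∫ x in (x0 : ℝ)..(n1 : ℝ), (ind (XC d l) ⌊α * P.eval x⌋₊ - 1 / (d : ℝ)) =
        (∫ x in (x0 : ℝ)..(n1 : ℝ), ind (XC d l) ⌊α * P.eval x⌋₊) - (n1 - x0) / d := by
      rw [intervalIntegral.integral_sub (flcR_ii _ h01r (hPc _)) (by simp), intervalIntegral.integral_const, smul_eq_mul]
      ring
    rw [h3] at h2
    have h4 : 2 * 2 / (α * P.derivative.eval (x0 : ℝ)) ≤ 4 := by
      rw [div_le_iff₀ (by linarith)]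
      linarith
    have h5 := (abs_le.1 (h2.trans h4)).2
    have h6 : ((n1 : ℝ) - x0) / d ≤ n1 / d := by
      gcongr
      linarith
    linarith
  have hfirst : ∫ x in (0 : ℝ)..(n1 : ℝ), F x ≤ x0 + 4 + n1 / d := by
    rw [← intervalIntegral.integral_add_adjacent_intervals (hFi 0 x0 hx0r) (hFi x0 n1 h01r)]
    have h1 : ∫ x in (0 : ℝ)..(x0 : ℝ), F x ≤ ∫ x in (0 : ℝ)..(x0 : ℝ), (1 : ℝ) :=
      intervalIntegral.integral_mono_on hx0r (hFi 0 x0 hx0r) (by simp) fun x _ => hF1 x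
    rw [intervalIntegral.integral_const, smul_eq_mul, mul_one, sub_zero] at h1
    linarith
  have hsecond : ∫ x in (0 : ℝ)..(n1 : ℝ), G x ≤ n1 := by
    have h1 : ∫ x in (0 : ℝ)..(n1 : ℝ), G x ≤ ∫ x in (0 : ℝ)..(n1 : ℝ), (1 : ℝ) :=
      intervalIntegral.integral_mono_on hn1r (hGi 0 n1) (by simp) fun x _ => (li_bd α P x).2
    rw [intervalIntegral.integral_const, smul_eq_mul, mul_one, sub_zero] at h1
    exact h1
  set M0 : ℕ := min M n1 with hM0
  have hM0M : (M0 : ℝ) ≤ M := by exact_mod_cast min_le_left _ _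
  have hM0n : (M0 : ℝ) ≤ n1 := by exact_mod_cast min_le_right _ _
  have hM00 : (0 : ℝ) ≤ M0 := Nat.cast_nonneg _
  have hA : |(∫ x in (0 : ℝ)..(M0 : ℝ), F x) - (∫ x in (0 : ℝ)..(M0 : ℝ), G x) / φ| ≤
      x0 + 4 + n1 / d + n1 / φ := by
    have h1 : ∫ x in (0 : ℝ)..(M0 : ℝ), F x ≤ ∫ x in (0 : ℝ)..(n1 : ℝ), F x := by
      rw [← intervalIntegral.integral_add_adjacent_intervals (hFi 0 M0 hM00) (hFi M0 n1 hM0n)]
      have := intervalIntegral.integral_nonneg hM0n (f := F) (μ := volume) fun x _ => hF0 x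
      linarith
    have h2 : ∫ x in (0 : ℝ)..(M0 : ℝ), G x ≤ ∫ x in (0 : ℝ)..(n1 : ℝ), G x := by
      rw [← intervalIntegral.integral_add_adjacent_intervals (hGi 0 M0) (hGi M0 n1)]
      have := intervalIntegral.integral_nonneg hM0n (f := G) (μ := volume) fun x _ => (li_bd α P x).1
      linarith
    have h3 : 0 ≤ ∫ x in (0 : ℝ)..(M0 : ℝ), F x := intervalIntegral.integral_nonneg hM00 fun x _ => hF0 x
    have h4 : 0 ≤ (∫ x in (0 : ℝ)..(M0 : ℝ), G x) / φ :=
      div_nonneg (intervalIntegral.integral_nonneg hM00 fun x _ => (li_bd α P x).1) hφ0.le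
    have h5 : (∫ x in (0 : ℝ)..(M0 : ℝ), G x) / φ ≤ n1 / φ := by
      gcongr
      linarith
    have h6 : 0 ≤ (n1 : ℝ) / φ := by positivity
    have h7 : 0 ≤ (n1 : ℝ) / d := by positivity
    rw [abs_le]
    constructor <;> linarith
  -- the second part
  have hB : |(∫ x in (M0 : ℝ)..(M : ℝ), F x) - (∫ x in (M0 : ℝ)..(M : ℝ), G x) / φ| ≤
      2 * (EMax Y d l + 8) / (α * P.derivative.eval (n1 : ℝ)) + N * (2 / T) := by
    rcases le_or_gt M n1 with hc | hc
    · have e : M0 = M := min_eq_left hc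
      rw [e, intervalIntegral.integral_same, intervalIntegral.integral_same, zero_div, sub_zero, abs_zero]
      have : 0 < α * P.derivative.eval (n1 : ℝ) := mul_pos hα hdn1
      positivity
    · have e : M0 = n1 := min_eq_right hc.le
      rw [e]
      have hcr : (n1 : ℝ) ≤ M := by exact_mod_cast hc.le
      have hYM : α * P.eval (M : ℝ) ≤ Y := by
        have hm : MonotoneOn (fun x => P.eval x) (Set.Icc (M : ℝ) N) := by
          refine monotoneOn_of_deriv_nonneg (convex_Icc _ _) (cont_ev P _) ?_ ?_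
          · intro x hx
            exact (pol_hd P x).differentiableAt.differentiableWithinAt
          · intro x hx
            rw [(pol_hd P x).deriv]
            exact (pol_facts hq hH hP ((hx0n1.trans hcr).trans (interior_subset hx).1)).1.le
        have := hm (Set.left_mem_Icc.2 hMr) (Set.right_mem_Icc.2 hMr) hMr
        exact (mul_le_mul_of_nonneg_left this hα.le).trans hY
      have h1 := ibp_pol hq hH hP hα hx0n1 hcr (fun m => ind (XP d l) m - lw m / φ)
        (S := EMax Y d l + 8) (fun y hy hy2 => PrR_prime l hd hy (hy2.trans hYM))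
      have hlwi : IntervalIntegrable (fun x => lw ⌊α * P.eval x⌋₊ / φ) volume n1 M :=
        (flcR_ii _ hcr (hPc _)).div_const φ
      have h2 : ∫ x in (n1 : ℝ)..(M : ℝ), (ind (XP d l) ⌊α * P.eval x⌋₊ - lw ⌊α * P.eval x⌋₊ / φ) =
          (∫ x in (n1 : ℝ)..(M : ℝ), F x) - ∫ x in (n1 : ℝ)..(M : ℝ), lw ⌊α * P.eval x⌋₊ / φ :=
        intervalIntegral.integral_sub (hFi _ _ hcr) hlwi
      rw [h2] at h1
      have h3 : |(∫ x in (n1 : ℝ)..(M : ℝ), lw ⌊α * P.eval x⌋₊ / φ) - (∫ x in (n1 : ℝ)..(M : ℝ), G x) / φ| ≤ N * (2 / T) := by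
        rw [← intervalIntegral.integral_div, ← intervalIntegral.integral_sub hlwi ((hGi _ _).div_const φ)]
        have h4 := intervalIntegral.norm_integral_le_of_norm_le_const (a := (n1 : ℝ)) (b := M) (C := 2 / T)
          (f := fun x => lw ⌊α * P.eval x⌋₊ / φ - G x / φ) (fun x hx => by
            rw [Set.uIoc_of_le hcr] at hx
            have h5 := lw_log hT (hTn x hx.1.le)
            rw [Real.norm_eq_abs, ← sub_div, abs_div, abs_of_pos hφ0]
            exact (div_le_self (abs_nonneg _) hφ).trans h5)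
        rw [Real.norm_eq_abs] at h4
        refine h4.trans ?_
        rw [abs_of_nonneg (by linarith), mul_comm]
        have : 0 ≤ 2 / T := by positivity
        gcongr
        linarith
      have e5 : (∫ x in (n1 : ℝ)..(M : ℝ), F x) - (∫ x in (n1 : ℝ)..(M : ℝ), G x) / φ =
          ((∫ x in (n1 : ℝ)..(M : ℝ), F x) - ∫ x in (n1 : ℝ)..(M : ℝ), lw ⌊α * P.eval x⌋₊ / φ) +
          ((∫ x in (n1 : ℝ)..(M : ℝ), lw ⌊α * P.eval x⌋₊ / φ) - (∫ x in (n1 : ℝ)..(M : ℝ), G x) / φ) := by ring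
      rw [e5]
      exact (abs_add_le _ _).trans (add_le_add h1 h3)
  have e1 : ∫ x in (0 : ℝ)..(M : ℝ), F x = (∫ x in (0 : ℝ)..(M0 : ℝ), F x) + ∫ x in (M0 : ℝ)..(M : ℝ), F x :=
    (intervalIntegral.integral_add_adjacent_intervals (hFi 0 M0 hM00) (hFi M0 M hM0M)).symm
  have e2 : ∫ x in (0 : ℝ)..(M : ℝ), G x = (∫ x in (0 : ℝ)..(M0 : ℝ), G x) + ∫ x in (M0 : ℝ)..(M : ℝ), G x :=
    (intervalIntegral.integral_add_adjacent_intervals (hGi 0 M0) (hGi M0 M)).symm
  rw [e1, e2]
  have e3 : (∫ x in (0 : ℝ)..(M0 : ℝ), F x) + (∫ x in (M0 : ℝ)..(M : ℝ), F x) -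
      ((∫ x in (0 : ℝ)..(M0 : ℝ), G x) + ∫ x in (M0 : ℝ)..(M : ℝ), G x) / φ =
      ((∫ x in (0 : ℝ)..(M0 : ℝ), F x) - (∫ x in (0 : ℝ)..(M0 : ℝ), G x) / φ) +
      ((∫ x in (M0 : ℝ)..(M : ℝ), F x) - (∫ x in (M0 : ℝ)..(M : ℝ), G x) / φ) := by ring
  rw [e3]
  refine (abs_add_le _ _).trans ?_
  linarith

end Pool.Agent.Q150.LV
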