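import Pool.Agent.Q150.LV.C
import Pool.Agent.Q138.PS.TD

set_option autoImplicit false

/-!
# Weighted level of distribution for the primes `⌊α P(n)⌋`
-/

namespace Pool.Agent.Q150.LV

open Finset MeasureTheory Filter Topology
open Pool.Agent.Q138.PS
open Pool.Agent.Q138.GS (pw lg1)
open Pool.Agent.Results.MP_188a10_nt.WeightedExceptional (primesAP li EMax nuD)

/-- the polynomial over the reals -/
noncomputable def rl (P : Polynomial ℤ) : Polynomial ℝ := P.map (Int.castRingHom ℝ)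

/-- sampling for the primes in residue classes -/
def Good (q : ℕ) (η α : ℝ) : Prop :=
  ∀ᶠ N : ℕ in atTop, ∀ (d : ℕ) (l : ZMod d), 1 ≤ d → (d : ℝ) ≤ (N : ℝ) ^ η → ∀ P : Polynomial ℤ, P.natDegree = q →
    0 < P.leadingCoeff → (∀ j, |((P.coeff j : ℤ) : ℝ)| ≤ (N : ℝ) ^ η) → ∀ M : ℕ, M ≤ N →
    |(∑ n ∈ Ioc 0 M, ind (XP d l) ⌊α * (rl P).eval (n : ℝ)⌋₊) -
      ∫ x in (0 : ℝ)..(M : ℝ), ind (XP d l) ⌊α * (rl P).eval x⌋₊| ≤ (N : ℝ) ^ (1 - η)

theorem good_dim (q : ℕ) (hq : 2 ≤ q) {η : ℝ} (hη : 0 < η) (hη1 : η ≤ 1 / 4) :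
    dimH {α : ℝ | 0 < α ∧ ¬ Good q η α} ≤
      ENNReal.ofReal ((q + (2 * q + 14) * η) / (q + kp q - 4 * η)) := by
  have hq0 : (2 : ℝ) ≤ q := by exact_mod_cast hq
  have hkp := kp_pos hq
  have h1 := sample_eta (ι := ℕ × ℕ) q hq (fun i m => ((ind (XP i.1 (i.2 : ZMod i.1)) m : ℝ) : ℂ)) (fun i m => by
    rw [Complex.norm_real, Real.norm_eq_abs, abs_of_nonneg (ind_nonneg _ _)]
    exact ind_le _ _) (K := 2) (η := η) (by norm_num) hη hη1 (by linarith)
    (fun N => (range (⌊(N : ℝ) ^ η⌋₊ + 1)).erase 0 ×ˢ range ⌊(N : ℝ) ^ η⌋₊) (by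
      intro N M hNM
      have h2 : ⌊(N : ℝ) ^ η⌋₊ ≤ ⌊(M : ℝ) ^ η⌋₊ := by
        apply Nat.floor_le_floor
        apply Real.rpow_le_rpow (Nat.cast_nonneg _) (by exact_mod_cast hNM) hη.le
      apply product_subset_product
      · exact erase_subset_erase _ (range_subset_range.2 (by omega))
      · exact range_subset_range.2 h2) (by
      refine Eventually.of_forall fun N => ?_
      rw [card_product, card_erase_of_mem (by simp), card_range, card_range]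
      have h2 : ((⌊(N : ℝ) ^ η⌋₊ : ℕ) : ℝ) ≤ (N : ℝ) ^ η := Nat.floor_le (by positivity)
      rw [Nat.add_sub_cancel]
      push_cast
      calc ((⌊(N : ℝ) ^ η⌋₊ : ℕ) : ℝ) * (⌊(N : ℝ) ^ η⌋₊ : ℕ) ≤ (N : ℝ) ^ η * (N : ℝ) ^ η := by gcongr
        _ = ((N : ℝ) ^ η) ^ (2 : ℝ) := by
            rw [Real.rpow_two]
            ring
        _ = (N : ℝ) ^ (2 * η) := by
            rw [← Real.rpow_mul (Nat.cast_nonneg _)]
            ring_nf)
  refine (dimH_mono ?_).trans (h1.trans (le_of_eq ?_))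
  swap
  · congr 2
    ring
  rintro α ⟨hα, hnot⟩
  refine ⟨hα, fun hgood => hnot ?_⟩
  unfold Good
  filter_upwards [hgood] with N hN
  intro d l hd hdN P hdeg hlead hco M hM
  have hNe : NeZero d := ⟨by omega⟩
  have h2 : d ≤ ⌊(N : ℝ) ^ η⌋₊ := Nat.le_floor hdN
  have h3 := hN (d, l.val) (by
    rw [mem_product, mem_erase, mem_range, mem_range]
    refine ⟨⟨by simp only; omega, by simp only; omega⟩, ?_⟩
    simp only
    exact (ZMod.val_lt l).trans_le h2) P hdeg hlead hco 0 M (Nat.zero_le _) hM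
  simp only [ZMod.natCast_val, ZMod.cast_id', id_eq] at h3
  have h4 : DP (fun m => ((ind (XP d l) m : ℝ) : ℂ)) α (P.map (Int.castRingHom ℝ)) 0 M =
      (((∑ n ∈ Ioc 0 M, ind (XP d l) ⌊α * (rl P).eval (n : ℝ)⌋₊) -
      ∫ x in (0 : ℝ)..(M : ℝ), ind (XP d l) ⌊α * (rl P).eval x⌋₊ : ℝ) : ℂ) := by
    unfold DP rl
    rw [Complex.ofReal_sub, ← intervalIntegral.integral_ofReal]
    push_cast
    rfl
  rw [h4, Complex.norm_real, Real.norm_eq_abs] at h3
  exact h3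

end Pool.Agent.Q150.LV
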