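import Pool.Agent.Q150.LV.D

set_option autoImplicit false

/-!
# From sampling to the weighted level of distribution
-/

namespace Pool.Agent.Q150.LV

open Finset MeasureTheory Filter Topology
open Pool.Agent.Q138.PS
open Pool.Agent.Q138.GS (pw lg1)
open Pool.Agent.Results.MP_188a10_nt.WeightedExceptional (primesAP li EMax nuD)

/-- the weighted level of distribution -/
def Lev (q : ℕ) (δ α : ℝ) : Prop :=
  ∀ (κ : ℝ) (A : ℕ), 1 ≤ κ → ∀ᶠ N : ℕ in atTop, ∀ P : Polynomial ℤ, P.natDegree = q → 0 < P.leadingCoeff →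
    (∀ j, |((P.coeff j : ℤ) : ℝ)| ≤ (N : ℝ) ^ δ) → ∀ (l : (d : ℕ) → (ZMod d)ˣ) (M : ℕ → ℕ), (∀ d, M d ≤ N) →
    ∑ d ∈ Icc 1 ⌊(N : ℝ) ^ δ⌋₊, κ ^ nuD d *
      |(∑ n ∈ Ioc 0 (M d), ind (XP d (l d)) ⌊α * (rl P).eval (n : ℝ)⌋₊) -
        (∫ x in (0 : ℝ)..(M d : ℝ), 1 / Real.log (max (α * (rl P).eval x) 3)) / (Nat.totient d : ℝ)| ≤
      N / Real.log N ^ A

theorem lev_of_good {q : ℕ} (hq : 2 ≤ q) {δ η α : ℝ} (hδ : 0 ≤ δ) (hδη : δ < η) (hη : η ≤ 1 / 4) (hα : 0 < α)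
    (hG : Good q η α) : Lev q δ α := by
  classical
  intro κ A hκ
  have hκ0 : 0 ≤ κ := by linarith
  have hq2 : (2 : ℝ) ≤ q := by exact_mod_cast hq
  obtain ⟨c, hc⟩ := Pool.Agent.H300R2.WEH.sum_log κ hκ
  obtain ⟨k, hk⟩ : ∃ k : ℕ, k = A + c + 2 := ⟨_, rfl⟩
  obtain ⟨U, hU⟩ : ∃ U : ℕ, U = A + 1 + k * (q - 1) := ⟨_, rfl⟩
  obtain ⟨B, C, hBV⟩ := Pool.Agent.Results.MP_188a10_nt.WeightedExceptional.result κ hκ U
  filter_upwards [hG, lg1, eventually_ge_atTop 8,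
    pw (4 * q ^ 2 + 1 / α + 3) k (show 0 < 1 - δ by linarith),
    pw (2 / α) (2 * k) (show (0 : ℝ) < 1 by norm_num),
    pw ((q + 2) ^ B) B (show (0 : ℝ) < 1 / 2 by norm_num),
    pw (4 * q ^ 2 + 1 / α + 30) 0 (show 0 < 1 - η - δ by linarith),
    pw 8 (c + A) (show 0 < η - δ by linarith),
    pw (1 / α + 2 * α + 1) 0 (show (0 : ℝ) < 1 by norm_num),
    (Real.tendsto_log_atTop.comp (tendsto_natCast_atTop_atTop (R := ℝ))).eventually_ge_atTop (24 * |C| + 4)]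
    with N hGN hl hN8 g1 g2 g3 g4 g5 g6 g7
  intro P hdeg hlead hco l M hM
  simp only [Function.comp] at g7
  rw [pow_zero, mul_one] at g4 g6
  rw [Real.rpow_one] at g2 g6
  set ℓ := Real.log N with hℓ
  have hN8r : (8 : ℝ) ≤ N := by exact_mod_cast hN8
  have hN0 : (0 : ℝ) < N := by linarith
  have hN1 : (1 : ℝ) ≤ N := by linarith
  have hl0 : 0 < ℓ := by linarith
  set H : ℝ := (N : ℝ) ^ δ with hHdef
  have hH1 : 1 ≤ H := Real.one_le_rpow hN1 hδ
  set R := rl P with hR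
  have hPH : PH q H R := int_PH hdeg hlead hco
  set a : ℝ := R.leadingCoeff with ha
  have ha1 : 1 ≤ a := hPH.2.1
  have haH : a ≤ H := by
    have := (le_abs_self _).trans (hPH.2.2 q)
    rwa [← hPH.1] at this
  have hHN : H ≤ N := by
    calc H ≤ (N : ℝ) ^ (1 : ℝ) := Real.rpow_le_rpow_of_exponent_le hN1 (by linarith)
      _ = N := Real.rpow_one _
  -- the points
  set x0 : ℕ := ⌈4 * (q * (q * H)) + 1 / α⌉₊ with hx0def
  have hx0l : 4 * (q * (q * H)) + 1 / α ≤ x0 := Nat.le_ceil _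
  have hα1 : 0 < 1 / α := by positivity
  have hx0u : (x0 : ℝ) ≤ 4 * (q * (q * H)) + 1 / α + 1 := (Nat.ceil_lt_add_one (by positivity)).le
  have hx0a : 4 * (q * (q * H)) ≤ (x0 : ℝ) := by linarith
  have hx0b : 1 / α ≤ (x0 : ℝ) := by
    have : 0 ≤ 4 * (q * (q * H)) := by positivity
    linarith
  set n1 : ℕ := ⌈(N : ℝ) / ℓ ^ k⌉₊ with hn1def
  have hn1l : (N : ℝ) / ℓ ^ k ≤ n1 := Nat.le_ceil _
  have hlk : 1 ≤ ℓ ^ k := one_le_pow₀ hl
  have hn1u : (n1 : ℝ) ≤ N / ℓ ^ k + 1 := (Nat.ceil_lt_add_one (by positivity)).le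
  have hn1N : n1 ≤ N := Nat.ceil_le.2 (div_le_self hN0.le hlk)
  have hNH : (N : ℝ) ^ (1 - δ) * H = N := by
    rw [hHdef, ← Real.rpow_add hN0]
    norm_num
  have hbig : 4 * (q * (q * H)) + 1 / α + 2 ≤ N / ℓ ^ k := by
    rw [le_div_iff₀ (by positivity)]
    calc (4 * (q * (q * H)) + 1 / α + 2) * ℓ ^ k ≤ ((4 * q ^ 2 + 1 / α + 3) * H) * ℓ ^ k := by
          gcongr
          have h1 : 1 / α ≤ 1 / α * H := le_mul_of_one_le_right hα1.le hH1
          nlinarith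
      _ = ((4 * q ^ 2 + 1 / α + 3) * ℓ ^ k) * H := by ring
      _ ≤ (N : ℝ) ^ (1 - δ) * H := by gcongr
      _ = N := hNH
  have h01 : x0 ≤ n1 := by
    have : (x0 : ℝ) ≤ n1 := by linarith
    exact_mod_cast this
  have h01r : (x0 : ℝ) ≤ n1 := by exact_mod_cast h01
  have hx01 : (1 : ℝ) ≤ x0 := by nlinarith
  have hn11 : (1 : ℝ) ≤ n1 := by linarith
  -- the derivative
  have hderx : ∀ x : ℝ, (x0 : ℝ) ≤ x → α * a * x ^ (q - 1) ≤ α * R.derivative.eval x := by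
    intro x hx
    have h1 := (pol_facts hq hH1 hPH (hx0a.trans hx)).2.1
    rw [← ha] at h1
    have hx' : 0 < x := by linarith
    calc α * a * x ^ (q - 1) = α * ((2 : ℝ) * a * x ^ (q - 1) / 2) := by ring
      _ ≤ α * (q * a * x ^ (q - 1) / 2) := by gcongr
      _ ≤ _ := by gcongr
  have hpow : ∀ x : ℝ, (1 : ℝ) ≤ x → x ≤ x ^ (q - 1) := by
    intro x hx
    calc x = x ^ 1 := (pow_one _).symm
      _ ≤ _ := pow_le_pow_right₀ hx (by omega)
  have hone : ∀ x : ℝ, (x0 : ℝ) ≤ x → 1 ≤ α * R.derivative.eval x := by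
    intro x hx
    refine le_trans ?_ (hderx x hx)
    have h1 : 1 ≤ α * x := by
      have := hx0b.trans hx
      rw [div_le_iff₀ hα] at this
      linarith
    have h2 := hpow x (hx01.trans hx)
    have hx' : 0 < x := by linarith
    calc (1 : ℝ) ≤ α * 1 * x := by linarith
      _ ≤ α * a * x ^ (q - 1) := by gcongr
  -- the values
  have hT : (3 : ℝ) ≤ N := by linarith
  have hTn : ∀ x : ℝ, (n1 : ℝ) ≤ x → (N : ℝ) ≤ α * R.eval x := by
    intro x hx
    have h1 := (pol_facts hq hH1 hPH (hx0a.trans (h01r.trans hx))).2.2.2.1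
    rw [← ha] at h1
    have hx1 : (1 : ℝ) ≤ x := hn11.trans hx
    have h2 : x ^ 2 ≤ x ^ q := pow_le_pow_right₀ hx1 hq
    have h3 : (N : ℝ) / ℓ ^ k ≤ x := hn1l.trans hx
    have h4 : ((N : ℝ) / ℓ ^ k) ^ 2 ≤ x ^ 2 := by gcongr
    have h5 : (N : ℝ) ≤ α * (((N : ℝ) / ℓ ^ k) ^ 2 / 2) := by
      rw [div_pow, ← pow_mul, mul_comm k 2, div_div, mul_div_assoc', le_div_iff₀ (by positivity)]
      have h6 : 2 * ℓ ^ (2 * k) ≤ α * N := by
        have := g2
        rw [div_mul_eq_mul_div, div_le_iff₀ hα] at this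
        linarith
      nlinarith
    calc (N : ℝ) ≤ α * (((N : ℝ) / ℓ ^ k) ^ 2 / 2) := h5
      _ ≤ α * (1 * x ^ q / 2) := by
          rw [one_mul]
          have := h4.trans h2
          gcongr
      _ ≤ α * (a * x ^ q / 2) := by
          have : 0 ≤ x ^ q := by positivity
          gcongr
      _ ≤ _ := by gcongr
  have hn1Nr : (n1 : ℝ) ≤ N := by exact_mod_cast hn1N
  have hval := (pol_facts hq hH1 hPH (x := (N : ℝ)) (hx0a.trans (h01r.trans hn1Nr))).2.2.2.2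
  rw [← ha] at hval
  set Z : ℝ := α * a * (N : ℝ) ^ q with hZ
  have hαN : 1 ≤ α * N := by
    have h1 : 1 / α ≤ N := by
      have : 0 ≤ 2 * α + 1 := by positivity
      linarith
    rw [div_le_iff₀ hα] at h1
    linarith
  have hZN : (N : ℝ) ≤ Z := by
    calc (N : ℝ) = 1 * N := (one_mul _).symm
      _ ≤ (α * N) * N := by gcongr
      _ = α * 1 * (N : ℝ) ^ 2 := by ring
      _ ≤ Z := by
          rw [hZ]
          have : (N : ℝ) ^ 2 ≤ (N : ℝ) ^ q := pow_le_pow_right₀ hN1 hq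
          gcongr
  set Y : ℕ := ⌈2 * Z⌉₊ with hYdef
  have hYl : 2 * Z ≤ Y := Nat.le_ceil _
  have hYu : (Y : ℝ) ≤ 3 * Z := by
    have := (Nat.ceil_lt_add_one (show 0 ≤ 2 * Z by linarith)).le
    linarith
  have hY : α * R.eval (N : ℝ) ≤ Y := by
    calc α * R.eval (N : ℝ) ≤ α * (2 * a * (N : ℝ) ^ q) := by gcongr
      _ = 2 * Z := by rw [hZ]; ring
      _ ≤ Y := hYl
  have hNY : (N : ℝ) ≤ Y := by linarith
  have hY0 : (0 : ℝ) < Y := by linarith
  have hlogY1 : ℓ ≤ Real.log Y := Real.log_le_log hN0 hNY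
  have hlogY2 : Real.log Y ≤ (q + 2) * ℓ := by
    have h1 : (Y : ℝ) ≤ (N : ℝ) ^ (q + 2) := by
      have h2 : 3 * Z ≤ (N : ℝ) ^ (q + 2) := by
        have h3 : 3 * α ≤ 2 * N := by
          have : 0 ≤ 1 / α + 1 := by positivity
          nlinarith
        have h4 : a ≤ (N : ℝ) ^ (1 / 4 : ℝ) := haH.trans (Real.rpow_le_rpow_of_exponent_le hN1 (by linarith))
        have h5 : 2 * a ≤ N := by
          have e1 : ((N : ℝ) ^ (1 / 4 : ℝ)) ^ 4 = N := by
            rw [← Real.rpow_natCast, ← Real.rpow_mul hN0.le]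
            norm_num
          have h6 : (1 : ℝ) ≤ (N : ℝ) ^ (1 / 4 : ℝ) := Real.one_le_rpow hN1 (by norm_num)
          set t := (N : ℝ) ^ (1 / 4 : ℝ) with ht
          have h7 : 2 * t ≤ t ^ 4 := by
            have h8 : (8 : ℝ) ≤ t ^ 4 := by rw [e1]; exact hN8r
            by_contra hcon
            rw [not_le] at hcon
            have h9 : t ^ 3 < 2 := by
              have : t * t ^ 3 < t * 2 := by nlinarith
              exact lt_of_mul_lt_mul_left this (by linarith)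
            have h10 : t < 2 := by nlinarith [sq_nonneg t, mul_pos (show 0 < t by linarith) (show 0 < t by linarith)]
            nlinarith [mul_pos (show 0 < t by linarith) (show 0 < t by linarith)]
          linarith
        calc 3 * Z = (3 * α) * a * (N : ℝ) ^ q := by rw [hZ]; ring
          _ ≤ (2 * N) * a * (N : ℝ) ^ q := by gcongr
          _ = (2 * a) * N * (N : ℝ) ^ q := by ring
          _ ≤ N * N * (N : ℝ) ^ q := by gcongr
          _ = (N : ℝ) ^ (q + 2) := by ring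
      exact hYu.trans h2
    have h2 := Real.log_le_log hY0 h1
    rw [Real.log_pow] at h2
    push_cast at h2
    exact h2
  have hlogY0 : 0 < Real.log Y := by linarith
  -- the moduli
  set D : ℕ := ⌊(N : ℝ) ^ δ⌋₊ with hDdef
  have hDH : (D : ℝ) ≤ H := Nat.floor_le (by positivity)
  have hDN : D ≤ N := by
    have : (D : ℝ) ≤ N := hDH.trans hHN
    exact_mod_cast this
  have hsq : (D : ℝ) ^ 2 ≤ 1 * Y / Real.log Y ^ B := by
    rw [one_mul, le_div_iff₀ (by positivity)]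
    have h1 : (D : ℝ) ^ 2 ≤ (N : ℝ) ^ (1 / 2 : ℝ) := by
      calc (D : ℝ) ^ 2 ≤ H ^ 2 := by gcongr
        _ = (N : ℝ) ^ (2 * δ) := by
            rw [hHdef, ← Real.rpow_natCast, ← Real.rpow_mul hN0.le]
            congr 1
            push_cast
            ring
        _ ≤ _ := Real.rpow_le_rpow_of_exponent_le hN1 (by linarith)
    have h2 : Real.log Y ^ B ≤ (N : ℝ) ^ (1 / 2 : ℝ) := by
      calc Real.log Y ^ B ≤ ((q + 2) * ℓ) ^ B := by gcongr
        _ = (q + 2) ^ B * ℓ ^ B := mul_pow _ _ _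
        _ ≤ _ := g3
    calc (D : ℝ) ^ 2 * Real.log Y ^ B ≤ (N : ℝ) ^ (1 / 2 : ℝ) * (N : ℝ) ^ (1 / 2 : ℝ) := by gcongr
      _ = N := by
          rw [← Real.rpow_add hN0]
          norm_num
      _ ≤ Y := hNY
  have hD1 : (D : ℝ) ≤ Y / Real.log Y ^ B := by
    have h1 : (D : ℝ) ≤ (D : ℝ) ^ 2 := by
      have : D ≤ D ^ 2 := Nat.le_self_pow (by norm_num) D
      exact_mod_cast this
    rw [one_mul] at hsq
    exact h1.trans hsq
  have hY3 : 3 ≤ Y := by
    have : (3 : ℝ) ≤ Y := by linarith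
    exact_mod_cast this
  have hbv := (hBV Y hY3).2 1 le_rfl D hD1 hsq (fun d => {l d}) (fun d => by simp)
  simp only [sum_singleton, one_mul] at hbv
  -- the sums over the moduli
  have hsum := hc N hN8
  have hnu : ∀ d, κ ^ nuD d = κ ^ d.primeFactors.card := fun d => rfl
  have hS1 : ∑ d ∈ Icc 1 D, κ ^ nuD d / (Nat.totient d : ℝ) ≤ ℓ ^ c := by
    refine le_trans (sum_le_sum_of_subset_of_nonneg (Icc_subset_Icc_right hDN) fun d _ _ => by positivity) ?_
    exact hsum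
  have hS2 : ∑ d ∈ Icc 1 D, κ ^ nuD d ≤ H * ℓ ^ c := by
    calc ∑ d ∈ Icc 1 D, κ ^ nuD d ≤ ∑ d ∈ Icc 1 D, H * (κ ^ nuD d / (Nat.totient d : ℝ)) := by
          refine sum_le_sum fun d hd => ?_
          rw [mem_Icc] at hd
          have hφ : (0 : ℝ) < Nat.totient d := by exact_mod_cast Nat.totient_pos.mpr (by omega)
          have h1 : (Nat.totient d : ℝ) ≤ H := by
            have h2 : (Nat.totient d : ℝ) ≤ d := by exact_mod_cast Nat.totient_le d
            have h3 : (d : ℝ) ≤ D := by exact_mod_cast hd.2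
            linarith
          rw [mul_div_assoc', le_div_iff₀ hφ]
          have : 0 ≤ κ ^ nuD d := by positivity
          nlinarith
      _ = H * ∑ d ∈ Icc 1 D, κ ^ nuD d / (Nat.totient d : ℝ) := by rw [mul_sum]
      _ ≤ H * ℓ ^ c := by gcongr
  -- one modulus
  set E1 : ℝ := (N : ℝ) ^ (1 - η) + x0 + 22 with hE1
  set W : ℝ := α * a * ((N : ℝ) / ℓ ^ k) ^ (q - 1) with hW
  have hW0 : 0 < W := by positivity
  have hWd : W ≤ α * R.derivative.eval (n1 : ℝ) := by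
    refine le_trans ?_ (hderx n1 h01r)
    rw [hW]
    gcongr
  have hone1 := hone n1 h01r
  have hterm : ∀ d ∈ Icc 1 D, |(∑ n ∈ Ioc 0 (M d), ind (XP d (l d)) ⌊α * R.eval (n : ℝ)⌋₊) -
        (∫ x in (0 : ℝ)..(M d : ℝ), 1 / Real.log (max (α * R.eval x) 3)) / (Nat.totient d : ℝ)| ≤
        E1 + 2 * n1 / (Nat.totient d : ℝ) + 2 / W * EMax Y d (l d) := by
    intro d hd
    rw [mem_Icc] at hd
    have hφ : (0 : ℝ) < Nat.totient d := by exact_mod_cast Nat.totient_pos.mpr (by omega)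
    have hφd : (Nat.totient d : ℝ) ≤ d := by exact_mod_cast Nat.totient_le d
    have hdD : (d : ℝ) ≤ D := by exact_mod_cast hd.2
    have h1 := hGN d (l d) hd.1 (by
      calc (d : ℝ) ≤ H := hdD.trans hDH
        _ ≤ (N : ℝ) ^ η := Real.rpow_le_rpow_of_exponent_le hN1 hδη.le) P hdeg hlead (fun j => (hco j).trans
          (Real.rpow_le_rpow_of_exponent_le hN1 hδη.le)) (M d) (hM d)
    have h2 := det hq hH1 hPH hα hx0a h01 (hM d) hn1N (hone x0 le_rfl) hT hTn hY (l d) hd.1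
    rw [← hR] at h1
    have h3 : (n1 : ℝ) / d ≤ n1 / (Nat.totient d : ℝ) := by gcongr
    have hE := EMax_nonneg Y d (l d)
    have h4 : 2 * (EMax Y d (l d) + 8) / (α * R.derivative.eval (n1 : ℝ)) ≤ 2 / W * EMax Y d (l d) + 16 := by
      have e1 : 2 * (EMax Y d (l d) + 8) / (α * R.derivative.eval (n1 : ℝ)) =
          2 / (α * R.derivative.eval (n1 : ℝ)) * EMax Y d (l d) + 16 / (α * R.derivative.eval (n1 : ℝ)) := by ring
      rw [e1]
      have e2 : 16 / (α * R.derivative.eval (n1 : ℝ)) ≤ 16 := div_le_self (by norm_num) hone1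
      have e3 : 2 / (α * R.derivative.eval (n1 : ℝ)) ≤ 2 / W := by gcongr
      have e4 := mul_le_mul_of_nonneg_right e3 hE
      linarith
    have h5 : (N : ℝ) * (2 / N) = 2 := by field_simp
    rw [h5] at h2
    set S1 := ∑ n ∈ Ioc 0 (M d), ind (XP d (l d)) ⌊α * R.eval (n : ℝ)⌋₊ with hS1d
    set I1 := ∫ x in (0 : ℝ)..(M d : ℝ), ind (XP d (l d)) ⌊α * R.eval x⌋₊ with hI1
    set J1 := (∫ x in (0 : ℝ)..(M d : ℝ), 1 / Real.log (max (α * R.eval x) 3)) / (Nat.totient d : ℝ) with hJ1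
    have e5 : S1 - J1 = (S1 - I1) + (I1 - J1) := by ring
    rw [e5]
    refine (abs_add_le _ _).trans ?_
    have e6 : 2 * (n1 : ℝ) / (Nat.totient d : ℝ) = n1 / (Nat.totient d : ℝ) + n1 / (Nat.totient d : ℝ) := by ring
    rw [e6, hE1]
    linarith
  -- total
  have htot : ∑ d ∈ Icc 1 D, κ ^ nuD d * |(∑ n ∈ Ioc 0 (M d), ind (XP d (l d)) ⌊α * R.eval (n : ℝ)⌋₊) -
        (∫ x in (0 : ℝ)..(M d : ℝ), 1 / Real.log (max (α * R.eval x) 3)) / (Nat.totient d : ℝ)| ≤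
      E1 * (H * ℓ ^ c) + 2 * n1 * ℓ ^ c + 2 / W * (|C| * (Y / Real.log Y ^ U)) := by
    calc _ ≤ ∑ d ∈ Icc 1 D, κ ^ nuD d * (E1 + 2 * n1 / (Nat.totient d : ℝ) + 2 / W * EMax Y d (l d)) := by
          refine sum_le_sum fun d hd => mul_le_mul_of_nonneg_left (hterm d hd) (by positivity)
      _ = E1 * (∑ d ∈ Icc 1 D, κ ^ nuD d) + 2 * n1 * (∑ d ∈ Icc 1 D, κ ^ nuD d / (Nat.totient d : ℝ)) +
          2 / W * ∑ d ∈ Icc 1 D, κ ^ nuD d * EMax Y d (l d) := by
          rw [mul_sum, mul_sum, mul_sum, ← sum_add_distrib, ← sum_add_distrib]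
          refine sum_congr rfl fun d _ => ?_
          ring
      _ ≤ _ := by
          have hE1p : 0 ≤ E1 := by positivity
          have h1 : C * (Y / Real.log Y ^ U) ≤ |C| * (Y / Real.log Y ^ U) := by
            have := le_abs_self C
            gcongr
          have h2 := hbv.trans h1
          gcongr
  refine htot.trans ?_
  have hlA : 0 < ℓ ^ A := by positivity
  -- first term
  have t1 : E1 * (H * ℓ ^ c) ≤ (1 / 4) * (N / ℓ ^ A) := by
    have e1 : x0 + 22 ≤ (N : ℝ) ^ (1 - η) := by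
      have e2 : (N : ℝ) ^ (1 - η - δ) * H = (N : ℝ) ^ (1 - η) := by
        rw [hHdef, ← Real.rpow_add hN0]
        congr 1
        ring
      calc (x0 : ℝ) + 22 ≤ (4 * q ^ 2 + 1 / α + 30) * H := by
            have h1 : 1 / α ≤ 1 / α * H := le_mul_of_one_le_right hα1.le hH1
            nlinarith
        _ ≤ (N : ℝ) ^ (1 - η - δ) * H := by gcongr
        _ = _ := e2
    have e3 : E1 ≤ 2 * (N : ℝ) ^ (1 - η) := by
      rw [hE1]
      linarith
    have e4 : (N : ℝ) ^ (1 - η) * H * (N : ℝ) ^ (η - δ) = N := by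
      rw [hHdef, ← Real.rpow_add hN0, ← Real.rpow_add hN0]
      have : 1 - η + δ + (η - δ) = 1 := by ring
      rw [this, Real.rpow_one]
    rw [mul_div_assoc', le_div_iff₀ hlA]
    have hp : 0 < (N : ℝ) ^ (1 - η) := by positivity
    calc E1 * (H * ℓ ^ c) * ℓ ^ A ≤ 2 * (N : ℝ) ^ (1 - η) * (H * ℓ ^ c) * ℓ ^ A := by gcongr
      _ = 1 / 4 * ((N : ℝ) ^ (1 - η) * H * (8 * ℓ ^ (c + A))) := by rw [pow_add]; ring
      _ ≤ 1 / 4 * ((N : ℝ) ^ (1 - η) * H * (N : ℝ) ^ (η - δ)) := by gcongr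
      _ = 1 / 4 * N := by rw [e4]
  -- second term
  have t2 : 2 * n1 * ℓ ^ c ≤ (1 / 4) * (N / ℓ ^ A) := by
    have e1 : (n1 : ℝ) ≤ 2 * (N / ℓ ^ k) := by
      have h1 : 1 ≤ N / ℓ ^ k := by
        have : 0 ≤ 4 * (q * (q * H)) := by positivity
        linarith
      linarith
    have e2 : 16 ≤ ℓ ^ 2 := by
      have : 4 ≤ ℓ := by
        have := abs_nonneg C
        linarith
      nlinarith
    rw [mul_div_assoc', le_div_iff₀ hlA]
    have e3 : ℓ ^ k = ℓ ^ A * ℓ ^ c * ℓ ^ 2 := by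
      rw [hk, pow_add, pow_add]
    calc 2 * (n1 : ℝ) * ℓ ^ c * ℓ ^ A ≤ 2 * (2 * (N / ℓ ^ k)) * ℓ ^ c * ℓ ^ A := by gcongr
      _ = 4 * N / ℓ ^ 2 := by
          rw [e3]
          field_simp
          ring
      _ ≤ 4 * N / 16 := by gcongr
      _ = 1 / 4 * N := by ring
  -- third term
  have t3 : 2 / W * (|C| * (Y / Real.log Y ^ U)) ≤ (1 / 4) * (N / ℓ ^ A) := by
    have e1 : (Y : ℝ) / Real.log Y ^ U ≤ 3 * Z / ℓ ^ U := by gcongr
    have e2 : 2 / W * (|C| * (3 * Z / ℓ ^ U)) = 6 * |C| * (N / ℓ ^ (A + 1)) := by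
      rw [hW, hZ, hU, div_pow, ← pow_mul]
      have e3 : (N : ℝ) ^ q = (N : ℝ) ^ (q - 1) * N := by
        rw [← pow_succ]
        congr 1
        omega
      rw [e3, pow_add ℓ (A + 1) (k * (q - 1))]
      field_simp
      ring
    have hC : 24 * |C| ≤ ℓ := by linarith
    calc 2 / W * (|C| * (Y / Real.log Y ^ U)) ≤ 2 / W * (|C| * (3 * Z / ℓ ^ U)) := by gcongr
      _ = 6 * |C| * (N / ℓ ^ (A + 1)) := e2
      _ = (1 / 4) * ((24 * |C|) / ℓ * (N / ℓ ^ A)) := by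
          rw [pow_succ]
          field_simp
          ring
      _ ≤ (1 / 4) * (1 * (N / ℓ ^ A)) := by
          have : (24 * |C|) / ℓ ≤ 1 := by
            rw [div_le_one hl0]
            exact hC
          have : 0 ≤ N / ℓ ^ A := by positivity
          gcongr
      _ = _ := by rw [one_mul]
  have : 0 ≤ (N : ℝ) / ℓ ^ A := by positivity
  linarith

end Pool.Agent.Q150.LV
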